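import Pool.Agent.H48.S6.RplA

/-!
# The double plateau, class half: the fields `act` and `time`

The rows are `q, q + X, ..., q + M X` with `q` near `(P - g) J`; `x J / 2 ≤ X ≤ x J`.
-/

set_option autoImplicit false

namespace Pool.S6C

open Finset Real
open Pool.Agent.H49.Ent Pool.Agent.H32.Dense Pool.STK Pool.KA Pool.KSAT Pool.K2S Pool.PB Pool.KS6
  Pool.Sel51

/-- **Activity and time for the double plateau.** -/
theorem dpl_act_time {S : PCl 3} {a R h₁ : ℝ} {i₀ : Fin 3} {c s₂ : ℝ} {r : ℝ → ℝ} {D : Set ℝ}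
    {σ : ℝ → Row} (hC : Cs S a R h₁ i₀ c s₂ r D σ) {act : ℚ → ℝ} {K : Set ℝ} {W : ℝ → ℝ}
    {v₁ t : ℚ} {e₁ Q₀ P g v₀ v ρ a₀ α : ℝ}
    (hL : Loc S i₀ c s₂ r D σ act K W v₁ t e₁ Q₀ P g v₀ v ρ a₀ α) {κ ϖ C lm : ℝ} (hκ : 0 < κ)
    (hϖ : 0 < ϖ) (hC0 : 0 < C) (hlm : 0 < lm) (M : ℕ) :
    ∃ δ : ℝ, 0 < δ ∧ ∀ x : ℝ, 0 < x → x ≤ δ → Clp S (fun J F A => ∀ X q : ℕ, x / 2 * J ≤ X →
      (X : ℝ) ≤ x * J → |(q : ℝ) - (P - g) * J| ≤ C * x * J →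
      ((J : ℝ) * Real.log 2 - lm * X ≤
        CH (Pool.Agent.H49.Ent.cond F.p A True) F.T (fun ω => (F.l ω, F.Z ω))) ∧
      ∀ k ≤ M, ∀ n X' : ℕ, κ * X ≤ X' → n + X' ≤ X → ∀ E : F.Ω → Prop, Sub E A →
      ϖ * Pe F.p A ≤ Pe F.p E → α / 2 * X' * Real.log 2 ≤
        CH (Pool.Agent.H49.Ent.cond F.p E True) (fun ω => F.D (q + k * X + n + X') ω i₀)
          (fun ω => (F.D (q + k * X + n) ω i₀, Fam.pt F ω))) := by
  obtain ⟨δ, hδ, h⟩ := rpl_act_time hC hL hκ hϖ (C := C + M + 1)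
    (by have : (0 : ℝ) ≤ M := Nat.cast_nonneg M
        linarith) hlm
  refine ⟨δ, hδ, fun x hx hxδ => ?_⟩
  refine Clp.mono (J₂ := 0) (h x hx hxδ) ?_
  intro J _ F A h1 X q hX1 hX2 hq
  obtain ⟨h2, h3⟩ := h1 X hX1
  refine ⟨h2, fun k hk n X' hX' hn E hE hPE => ?_⟩
  have hJ0 : (0 : ℝ) ≤ J := Nat.cast_nonneg J
  have hk' : (k : ℝ) ≤ M := by exact_mod_cast hk
  have hn' : (n : ℝ) + X' ≤ X := by exact_mod_cast hn
  have hn0 : (0 : ℝ) ≤ n := Nat.cast_nonneg n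
  have hX'0 : (0 : ℝ) ≤ X' := Nat.cast_nonneg X'
  have hX0 : (0 : ℝ) ≤ X := Nat.cast_nonneg X
  have hk0 : (0 : ℝ) ≤ k := Nat.cast_nonneg k
  have hM0 : (0 : ℝ) ≤ M := Nat.cast_nonneg M
  have b1 : (k : ℝ) * X ≤ M * (x * J) := mul_le_mul hk' hX2 hX0 hM0
  have b2 : (0 : ℝ) ≤ (k : ℝ) * X := mul_nonneg hk0 hX0
  have e1 : (C + M + 1) * x * J = C * x * J + M * (x * J) + x * J := by ring
  rw [abs_le] at hq
  refine h3 (q + k * X + n) X' hX' ?_ ?_ E hE hPE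
  · rw [e1]
    push_cast
    rw [abs_le]
    constructor <;> nlinarith [hq.1, hq.2]
  · rw [e1]
    push_cast
    rw [abs_le]
    constructor <;> nlinarith [hq.1, hq.2]

end Pool.S6C
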